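import Mathlib

/-!
# An invariant nonnegative subspace of a quaternion plus-matrix without maximal extension
-/

set_option autoImplicit false

namespace Pool.Agent.Results.MP_7dcdb2_al.NoExtension

open Quaternion Matrix

/-- Quaternion column vectors, a right vector space over the quaternions. -/
abbrev Vec (n : ℕ) := Fin n → ℍ[ℝ]

/-- The form `[x, y] = y^* H x`. -/
noncomputable def form {n : ℕ} (H : Matrix (Fin n) (Fin n) ℍ[ℝ]) (x y : Vec n) : ℍ[ℝ] :=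
  star y ⬝ᵥ (H *ᵥ x)

/-- `H`-nonnegative (right) subspaces. -/
def Nonneg {n : ℕ} (H : Matrix (Fin n) (Fin n) ℍ[ℝ]) (M : Submodule ℍ[ℝ]ᵐᵒᵖ (Vec n)) : Prop :=
  ∀ x ∈ M, 0 ≤ (form H x x).re

/-- `H`-plus-matrices. -/
def IsPlus {n : ℕ} (H A : Matrix (Fin n) (Fin n) ℍ[ℝ]) : Prop :=
  ∀ x : Vec n, 0 ≤ (form H x x).re → 0 ≤ (form H (A *ᵥ x) (A *ᵥ x)).re

/-- `A`-invariant subspaces. -/
def Invariant {n : ℕ} (A : Matrix (Fin n) (Fin n) ℍ[ℝ]) (M : Submodule ℍ[ℝ]ᵐᵒᵖ (Vec n)) : Prop :=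
  ∀ x ∈ M, A *ᵥ x ∈ M

/-- `S^* H S = I_p ⊕ (-I_q) ⊕ 0_r` for some invertible `S`. -/
def HasInertia {n : ℕ} (H : Matrix (Fin n) (Fin n) ℍ[ℝ]) (p q r : ℕ) : Prop :=
  p + q + r = n ∧ ∃ S : Matrix (Fin n) (Fin n) ℍ[ℝ], IsUnit S ∧
    Sᴴ * H * S = Matrix.diagonal fun i : Fin n =>
      if (i : ℕ) < p then (1 : ℍ[ℝ]) else if (i : ℕ) < p + q then -1 else 0

theorem finrank_one : Module.finrank ℍ[ℝ]ᵐᵒᵖ ℍ[ℝ] = 1 := by
  refine finrank_eq_one (1 : ℍ[ℝ]) one_ne_zero fun w => ⟨MulOpposite.op w, ?_⟩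
  simp

instance : Module.Finite ℍ[ℝ]ᵐᵒᵖ ℍ[ℝ] :=
  Module.finite_of_finrank_eq_succ finrank_one

theorem finrank_three : Module.finrank ℍ[ℝ]ᵐᵒᵖ (Vec 3) = 3 := by
  rw [Module.finrank_pi_fintype]
  simp [finrank_one]

/-- The hermitian matrix. -/
noncomputable def H : Matrix (Fin 3) (Fin 3) ℍ[ℝ] := Matrix.diagonal ![1, -1, 0]

/-- The plus-matrix. -/
noncomputable def A : Matrix (Fin 3) (Fin 3) ℍ[ℝ] := !![0, 0, 1; 0, 0, 0; 0, 0, 0]

theorem form_self (x : Vec 3) : (form H x x).re = normSq (x 0) - normSq (x 1) := by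
  have : form H x x = star (x 0) * x 0 - star (x 1) * x 1 := by
    simp [form, H, dotProduct, Fin.sum_univ_three, Matrix.mulVec_diagonal, sub_eq_add_neg]
  rw [this]
  simp [Quaternion.star_mul_self]

theorem mulVec_A (x : Vec 3) : A *ᵥ x = ![x 2, 0, 0] := by
  funext i
  fin_cases i <;> simp [A, Matrix.mulVec, dotProduct, Fin.sum_univ_three]

theorem inertia : HasInertia H 1 1 1 := by
  refine ⟨rfl, 1, isUnit_one, ?_⟩
  rw [Matrix.conjTranspose_one, one_mul, mul_one, H]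
  congr 1
  funext i
  fin_cases i <;> simp

/-- The invariant nonnegative subspace. -/
noncomputable def M₀ : Submodule ℍ[ℝ]ᵐᵒᵖ (Vec 3) := Submodule.span ℍ[ℝ]ᵐᵒᵖ {![1, 1, 0]}

theorem mem_M₀ (x : Vec 3) (hx : x ∈ M₀) : x 1 = x 0 ∧ x 2 = 0 := by
  obtain ⟨a, rfl⟩ := Submodule.mem_span_singleton.mp hx
  simp

theorem H_herm : Hᴴ = H := by
  rw [H, Matrix.diagonal_conjTranspose]
  congr 1
  funext i
  fin_cases i <;> simp

theorem no_max (M : Submodule ℍ[ℝ]ᵐᵒᵖ (Vec 3)) (hle : M₀ ≤ M) (hinv : Invariant A M)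
    (hnn : Nonneg H M) : Module.finrank ℍ[ℝ]ᵐᵒᵖ M ≠ 2 := by
  intro hfin
  have he2 : ∀ x ∈ M, x 0 = 0 → x 1 = 0 := by
    intro x hx h0
    have := hnn x hx
    rw [form_self, h0] at this
    have h1 : normSq (x 1) = 0 := le_antisymm (by simpa using this) normSq_nonneg
    exact normSq_eq_zero.mp h1
  have he3 : (![0, 0, 1] : Vec 3) ∈ M := by
    by_contra h3
    have hlt : M < M ⊔ Submodule.span ℍ[ℝ]ᵐᵒᵖ {![0, 0, 1]} := by
      refine lt_of_le_of_ne le_sup_left fun h => h3 ?_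
      rw [h]
      exact Submodule.mem_sup_right (Submodule.mem_span_singleton_self _)
    have h4 := Submodule.finrank_lt_finrank_of_lt hlt
    have h5 : Module.finrank ℍ[ℝ]ᵐᵒᵖ
        (M ⊔ Submodule.span ℍ[ℝ]ᵐᵒᵖ {![0, 0, 1]} : Submodule ℍ[ℝ]ᵐᵒᵖ (Vec 3)) =
        Module.finrank ℍ[ℝ]ᵐᵒᵖ (Vec 3) := by
      refine le_antisymm (Submodule.finrank_le _) ?_
      rw [finrank_three]
      omega
    have h6 := Submodule.eq_top_of_finrank_eq h5
    have h7 : (![0, 1, 0] : Vec 3) ∈ M ⊔ Submodule.span ℍ[ℝ]ᵐᵒᵖ {![0, 0, 1]} := by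
      rw [h6]; trivial
    obtain ⟨m, hm, y, hy, hmy⟩ := Submodule.mem_sup.mp h7
    obtain ⟨a, rfl⟩ := Submodule.mem_span_singleton.mp hy
    have e0 := congrFun hmy 0
    have e1 := congrFun hmy 1
    simp at e0 e1
    have := he2 m hm e0
    rw [this] at e1
    exact zero_ne_one e1
  have he1 : (![1, 0, 0] : Vec 3) ∈ M := by
    have := hinv _ he3
    rw [mulVec_A] at this
    simpa using this
  have hf : (![1, 1, 0] : Vec 3) ∈ M := hle (Submodule.mem_span_singleton_self _)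
  have h8 : (![1, 1, 0] : Vec 3) - ![1, 0, 0] ∈ M := M.sub_mem hf he1
  have h9 := he2 _ h8 (by simp)
  simp at h9

/-- **Q1 is false.** There are a singular hermitian quaternion matrix `H` (inertia `(p, q, r)` with
`r > 0`), an `H`-plus-matrix `A` and an `A`-invariant `H`-nonnegative subspace `M₀` that lies in no
`A`-invariant `H`-nonnegative subspace of dimension `p + r`. -/
theorem result : ∃ (n p q r : ℕ) (H A : Matrix (Fin n) (Fin n) ℍ[ℝ])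
    (M₀ : Submodule ℍ[ℝ]ᵐᵒᵖ (Vec n)),
    Hᴴ = H ∧ HasInertia H p q r ∧ ¬ IsUnit H ∧ IsPlus H A ∧ Invariant A M₀ ∧ Nonneg H M₀ ∧
    ∀ M : Submodule ℍ[ℝ]ᵐᵒᵖ (Vec n), M₀ ≤ M → Invariant A M → Nonneg H M →
      Module.finrank ℍ[ℝ]ᵐᵒᵖ M ≠ p + r := by
  refine ⟨3, 1, 1, 1, H, A, M₀, H_herm, inertia, ?_, ?_, ?_, ?_, ?_⟩
  · rintro ⟨u, hu⟩
    have h1 : H *ᵥ (![0, 0, 1] : Vec 3) = 0 := by
      funext i
      fin_cases i <;> simp [H, Matrix.mulVec_diagonal]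
    have h2 : (((u⁻¹ : (Matrix (Fin 3) (Fin 3) ℍ[ℝ])ˣ) : Matrix (Fin 3) (Fin 3) ℍ[ℝ]) * H) *ᵥ
        (![0, 0, 1] : Vec 3) = 0 := by
      rw [← Matrix.mulVec_mulVec, h1, Matrix.mulVec_zero]
    rw [← hu, Units.inv_mul, Matrix.one_mulVec] at h2
    have := congrFun h2 2
    simp at this
  · intro x _
    rw [form_self, mulVec_A]
    simp
  · intro x hx
    rw [mulVec_A, (mem_M₀ x hx).2]
    have : (![0, 0, 0] : Vec 3) = 0 := by
      funext i
      fin_cases i <;> rfl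
    rw [this]
    exact M₀.zero_mem
  · intro x hx
    rw [form_self, (mem_M₀ x hx).1, sub_self]
  · intro M h1 h2 h3
    exact no_max M h1 h2 h3

end Pool.Agent.Results.MP_7dcdb2_al.NoExtension
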